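import Mathlib
import Pool.Agent.H1.FX.FinX

/-!
# Exponential lower bounds for Frege proofs of bounded depth over short formulas and over a few
arbitrary formulas

For every `θ < 2` and every `D` there are `k` and `ε > 0` and tautologies `τ n`, each the negation
of a balanced conjunction of clauses with at most `k` literals, such that in every Frege system
every derivation of `τ n`, even from its own clauses as additional axioms, has size at least
`|τ n| ^ θ`, and has size at least `2 ^ (|τ n| ^ ε)` if, for some set `G` of at most `|τ n| ^ ε`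
arbitrary formulas, all its lines have depth at most `D` over the formulas in `G` and the formulas
of size at most `|τ n| ^ θ`, for all large `n`.
-/

set_option autoImplicit false

namespace Pool.Agent.Results.MP_576eff_lc.ExpBoundedDepthOverShort

open Filter Pool.Agent.H3.Frg Pool.Agent.H3.Frg4 Pool.Agent.H3.Ac

theorem result (θ : ℝ) (hθ : θ < 2) (D : ℕ) :
    ∃ (k : ℕ) (ε : ℝ), 0 < ε ∧ ∃ (d : ℕ → ℕ) (C : ℕ → ℕ → Fm ℕ) (τ : ℕ → Fm ℕ),
      (∀ n, τ n = Fm.neg (bigAnd (d n) (C n))) ∧
      (∀ n i, IsClause k (C n i)) ∧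
      (∀ n x, (τ n).eval x = true) ∧
      Tendsto (fun n => (τ n).enc.length) atTop atTop ∧
      ∀ Sch : Set (Fm ℕ), Sch.Finite → (∀ ψ ∈ Sch, ∀ x, ψ.eval x = true) →
        ∀ᶠ n in atTop, ∀ (L : ℕ) (pf : Fin L → Fm ℕ), IsDer Sch (Set.range (C n)) pf →
          (∃ i, pf i = τ n) →
          ((τ n).enc.length : ℝ) ^ θ ≤ ∑ i, ((pf i).enc.length : ℝ) ∧
          ∀ G : Finset (Fm ℕ), (G.card : ℝ) ≤ ((τ n).enc.length : ℝ) ^ ε →
            (∀ i, LDep (fun A => (A.enc.length : ℝ) ≤ ((τ n).enc.length : ℝ) ^ θ ∨ A ∈ G) D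
              (pf i)) →
            (2 : ℝ) ^ (((τ n).enc.length : ℝ) ^ ε) ≤ ∑ i, ((pf i).enc.length : ℝ) :=
  Pool.Agent.H1.FX.finalX θ hθ D

end Pool.Agent.Results.MP_576eff_lc.ExpBoundedDepthOverShort
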