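import Pool.Agent.H66.SF.Fo

/-!
First-order principles with an infinite model have no short symmetric Frege proofs.
-/

namespace Pool.Agent.Results.MP_576eff_lc.FirstOrderPrinciples

open Pool.Agent.H66.SF

/-- Let `ψ` be a first-order sentence in a relational language of bounded arity which holds in some
infinite structure `M`, and let `Ax` be a finite set of sound axiom schemes over negation and
implication.  There is a constant `K` such that for all `n` and all sets `Q` of elements of
`{0, …, n - 1}`: every derivation from `Ax` with modus ponens of the propositional formula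
expressing that `ψ` has no model with universe `{0, …, n - 1}`, whose set of lines is closed up to
rearrangement under the permutations of `Q`, contains at least `2 ^ (|Q| / K)` distinct
subformulas. -/
theorem result (L : FirstOrder.Language.{0, 0}) [L.IsRelational] (k₀ : ℕ)
    (hk₀ : ∀ k, k₀ < k → IsEmpty (L.Relations k)) (ψ : L.Sentence)
    (M : Type) [L.Structure M] [Infinite M] (hψ : M ⊨ ψ)
    (Ax : Finset (Fml ℕ)) (sound : ∀ a ∈ Ax, ∀ τ : ℕ → Prop, a.eval τ) :
    ∃ K : ℕ, 0 < K ∧
      ∀ (n : ℕ) (Q : Finset (Fin n)) (D : List (Fml (Atom L (Fin n)))),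
        IsProof Ax D → noModel ψ n ∈ D → FoSymmetric Q D → 2 ^ (Q.card / K) ≤ numSubs D :=
  fo_lower_bound L k₀ hk₀ ψ M hψ Ax sound

end Pool.Agent.Results.MP_576eff_lc.FirstOrderPrinciples
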