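import Mathlib
import Pool.Agent.H3.Frg3.Final3

/-!
# Frege proofs with lines longer than the tautology

For all `θ ≥ 1`, `δ > 0` with `θ + δ < 3/2` there are tautologies `τ n` of unbounded size such that
in every Frege system every proof of `τ n` all of whose lines have size at most `|τ n| ^ θ` has at
least `2 ^ (|τ n| ^ δ)` lines, for all large `n`.
-/

set_option autoImplicit false

namespace Pool.Agent.Results.MP_576eff_lc.LongLines

open Filter Pool.Agent.H3.Frg Pool.Agent.H3.Frg2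

theorem result (θ δ : ℝ) (hθ : 1 ≤ θ) (hδ : 0 < δ) (hsum : θ + δ < 3 / 2) :
    ∃ τ : ℕ → Fm ℕ,
      (∀ n x, (τ n).eval x = true) ∧
      Tendsto (fun n => (τ n).enc.length) atTop atTop ∧
      ∀ Sch : Set (Fm ℕ), Sch.Finite → (∀ ψ ∈ Sch, ∀ x, ψ.eval x = true) →
        ∀ᶠ n in atTop, ∀ (L : ℕ) (pf : Fin L → Fm ℕ), IsProof Sch pf → (∃ i, pf i = τ n) →
          (∀ i, ((pf i).enc.length : ℝ) ≤ ((τ n).enc.length : ℝ) ^ θ) →
          (2 : ℝ) ^ (((τ n).enc.length : ℝ) ^ δ) ≤ L :=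
  Pool.Agent.H3.Frg3.final3 θ δ hθ hδ hsum

end Pool.Agent.Results.MP_576eff_lc.LongLines
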