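import Mathlib
import Pool.Agent.H3.Frg.Core

/-!
# Exponential lower bound for Frege refutations with lines of sub-quadratic size

For all `N ≤ s ≤ c N ^ 2` there is an unsatisfiable family `Γ` of formulas in `N` variables, of
total size at most `C s`, such that every semantic refutation of `Γ` all of whose lines have size
at most `s` has at least `2 ^ (c N ^ 2 / s)` lines.
-/

set_option autoImplicit false

namespace Pool.Agent.Results.MP_576eff_lc.NarrowLines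

open Finset Pool.Agent.H3.Frg

theorem assembly (N n s : ℕ) [NeZero n] (hn : 1200 ≤ n) (hnN : 8 * n ≤ N)
    (u : ℝ) (hu : u = 2 ^ (32 * 400))
    (hs : u ^ 2 * s ≤ 16 * n * ((N / (8 * n) : ℕ) : ℝ) ^ 2) :
    ∃ Γ : Fin n → Fm (Fin N), (∀ i, (Γ i).leaves ≤ 8 * (16 * (N / (8 * n) + 1)) ^ 2) ∧
      (∀ x, ∃ i, (Γ i).eval x = false) ∧
      ∀ (L : ℕ) (pf : Fin L → Fm (Fin N)), IsRefutation Γ s pf → (2 : ℝ) ^ (8 * n) ≤ L := by
  have hn0 : 0 < n := by omega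
  have hN : 0 < N := by omega
  set b := N / (8 * n) with hb
  have hb1 : 1 ≤ b := (Nat.one_le_div_iff (by omega)).mpr hnN
  have hcard : Fintype.card (Edg n) = 8 * n := by
    rw [Fintype.card_prod, ZMod.card]; simp
  obtain ⟨β, hβ⟩ := exists_blocks N (8 * n) (by omega) hcard
  obtain ⟨tgt, hx, hdw⟩ := exists_graph n (n / 50) (by omega) (by omega)
  set M : ℕ := 16 * (b + 1) with hM
  have hcardS : ∀ w : ZMod n, (pre β (bd (srcOf (n := n)) tgt {w})).card ≤ M := fun w =>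
    card_pre_le β _ (b + 1) 16 (fun e => (hβ e).2) (hdw w)
  set c : ZMod n → Bool := fun w => decide (w = 0) with hc
  set A : ZMod n → Fm (Fin N) := fun w =>
    parAx ⟨0, hN⟩ M (pre β (bd (srcOf (n := n)) tgt {w})) (c w) with hA
  have hev : ∀ w x, (A w).eval x = true ↔
      chi (pre β (bd (srcOf (n := n)) tgt {w})) x = sg (c w) := fun w x =>
    eval_parAx _ M _ (hcardS w) (c w) x
  let e : Fin n ≃ ZMod n := (ZMod.finEquiv n).toEquiv
  refine ⟨fun i => A (e i), fun i => leaves_parAx _ M (by omega) _ _, fun x => ?_, ?_⟩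
  · by_contra hcon
    push Not at hcon
    have h1 : ∀ w, chi (pre β (bd (srcOf (n := n)) tgt {w})) x = sg (c w) := by
      intro w
      rw [← hev]
      have := hcon (e.symm w)
      rw [Equiv.apply_symm_apply] at this
      simpa using this
    have h2 := prod_chi_pre β (srcOf (n := n)) tgt x
    simp only [h1] at h2
    have h3 : ∏ w : ZMod n, sg (c w) = -1 := by
      rw [Finset.prod_eq_single (0 : ZMod n)]
      · simp [hc, sg]
      · intro w _ hw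
        simp [hc, hw, sg]
      · intro h; exact absurd (mem_univ _) h
    rw [h3] at h2
    norm_num at h2
  · intro L pf hpf
    refine lines_lower N n s b L hn hb1 β (fun e => (hβ e).1) tgt hx hdw u hu hs c pf hpf.small
      (fun i => ?_) hpf.final
    rcases hpf.step i with h | ⟨a, h⟩ | h
    · exact Or.inl h
    · refine Or.inr (Or.inl ⟨e a, fun x hx => h x ?_⟩)
      exact (hev (e a) x).mpr hx
    · exact Or.inr (Or.inr h)

theorem result :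
    ∃ c C : ℝ, 0 < c ∧ 0 < C ∧ ∀ N s : ℕ, 0 < N → N ≤ s → (s : ℝ) ≤ c * (N : ℝ) ^ 2 →
      ∃ (n : ℕ) (Γ : Fin n → Fm (Fin N)),
        n ≤ N ∧
        (∀ i, (Γ i).leaves ≤ s) ∧
        ((∑ i, (Γ i).leaves : ℕ) : ℝ) ≤ C * s ∧
        (∀ x, ∃ i, (Γ i).eval x = false) ∧
        ∀ (L : ℕ) (pf : Fin L → Fm (Fin N)), IsRefutation Γ s pf →
          (2 : ℝ) ^ (c * (N : ℝ) ^ 2 / s) ≤ L := by
  obtain ⟨u, hu⟩ : ∃ u : ℝ, u = 2 ^ (32 * 400) := ⟨_, rfl⟩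
  have hu16 : 16 ≤ u := by
    rw [hu]
    calc (16:ℝ) = 2 ^ 4 := by norm_num
      _ ≤ _ := pow_le_pow_right₀ (by norm_num) (by norm_num)
  obtain ⟨κ, hκ⟩ : ∃ κ : ℝ, κ = 16 / u ^ 2 := ⟨_, rfl⟩
  have hu2 : 0 < u ^ 2 := by positivity
  have hκ0 : 0 < κ := by rw [hκ]; positivity
  have hκ1 : κ ≤ 1 := by
    rw [hκ, div_le_one hu2]; nlinarith
  have hκu : u ^ 2 * κ = 16 := by
    rw [hκ]; field_simp
  refine ⟨κ ^ 2 / 2 ^ 28, 2 ^ 16 / κ, by positivity, by positivity, ?_⟩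
  intro N s hN hNs hsN
  have hNR : (0:ℝ) < N := by exact_mod_cast hN
  have hs0 : (0:ℝ) < s := hNR.trans_le (by exact_mod_cast hNs)
  have hNsR : (N:ℝ) ≤ s := by exact_mod_cast hNs
  obtain ⟨Q, hQ⟩ : ∃ Q : ℝ, Q = κ * (N:ℝ) ^ 2 / (256 * s) := ⟨_, rfl⟩
  have hQs : Q * (256 * s) = κ * (N:ℝ) ^ 2 := by
    rw [hQ]; field_simp
  have hQbig : 2 ^ 20 / κ ≤ Q := by
    rw [hQ, div_le_div_iff₀ hκ0 (by positivity)]
    have : (256:ℝ) * s ≤ 256 * (κ ^ 2 / 2 ^ 28 * (N:ℝ) ^ 2) := by linarith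
    calc (2:ℝ) ^ 20 * (256 * s) ≤ 2 ^ 20 * (256 * (κ ^ 2 / 2 ^ 28 * (N:ℝ) ^ 2)) :=
          mul_le_mul_of_nonneg_left this (by positivity)
      _ = _ := by ring
  have hκinv : 1 ≤ 1 / κ := by rwa [le_div_iff₀ hκ0, one_mul]
  have hQ20 : (2:ℝ) ^ 20 ≤ Q := by
    refine le_trans ?_ hQbig
    rw [le_div_iff₀ hκ0]
    nlinarith
  obtain ⟨n, hn⟩ : ∃ n : ℕ, n = ⌊Q⌋₊ := ⟨_, rfl⟩
  have hQ0 : 0 ≤ Q := by linarith [show (0:ℝ) < 2 ^ 20 by positivity]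
  have hnQ : (n:ℝ) ≤ Q := by rw [hn]; exact Nat.floor_le hQ0
  have hQn : Q < n + 1 := by rw [hn]; exact Nat.lt_floor_add_one Q
  have hn1200 : 1200 ≤ n := by
    rw [hn]
    refine Nat.le_floor ?_
    refine le_trans ?_ hQ20
    norm_num
  have hn1200R : (1200:ℝ) ≤ n := by exact_mod_cast hn1200
  have hQ2n : Q ≤ 2 * n := by linarith
  have : NeZero n := ⟨by omega⟩
  have hnR : (0:ℝ) < n := by linarith
  -- `8 n ≤ N`
  have h8n : 8 * n ≤ N := by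
    have h1 : Q ≤ N / 256 := by
      rw [hQ, div_le_div_iff₀ (by positivity) (by norm_num)]
      have h2 : κ * (N:ℝ) ^ 2 ≤ N * s := by
        calc κ * (N:ℝ) ^ 2 ≤ 1 * (N:ℝ) ^ 2 := mul_le_mul_of_nonneg_right hκ1 (by positivity)
          _ = N * N := by ring
          _ ≤ N * s := mul_le_mul_of_nonneg_left hNsR hNR.le
      nlinarith
    have h2 : (8 * n : ℝ) ≤ N := by nlinarith
    exact_mod_cast h2
  obtain ⟨b, hb⟩ : ∃ b : ℕ, b = N / (8 * n) := ⟨_, rfl⟩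
  have hb1 : 1 ≤ b := by rw [hb]; exact (Nat.one_le_div_iff (by omega)).mpr h8n
  have hb1R : (1:ℝ) ≤ b := by exact_mod_cast hb1
  have hbup : (b:ℝ) * (8 * n) ≤ N := by
    rw [hb]
    exact_mod_cast Nat.div_mul_le_self N (8 * n)
  have hblow : (N:ℝ) ≤ (b:ℝ) * (16 * n) := by
    have h1 : N < (b + 1) * (8 * n) := by
      rw [hb]
      have := Nat.lt_mul_div_succ N (show 0 < 8 * n by omega)
      linarith
    have h2 : (N:ℝ) < ((b:ℝ) + 1) * (8 * n) := by exact_mod_cast h1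
    nlinarith
  -- the size condition
  have hsize : u ^ 2 * s ≤ 16 * n * (b:ℝ) ^ 2 := by
    have h1 : (n:ℝ) * (256 * s) ≤ κ * (N:ℝ) ^ 2 := by
      rw [← hQs]; exact mul_le_mul_of_nonneg_right hnQ (by positivity)
    have h2 : (N:ℝ) ^ 2 ≤ ((b:ℝ) * (16 * n)) ^ 2 := pow_le_pow_left₀ hNR.le hblow 2
    have h3 : (n:ℝ) * (256 * s) ≤ κ * ((b:ℝ) * (16 * n)) ^ 2 :=
      h1.trans (mul_le_mul_of_nonneg_left h2 hκ0.le)
    have h4 : (256 * n) * (s:ℝ) ≤ (256 * n) * (κ * n * (b:ℝ) ^ 2) := by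
      calc (256 * n) * (s:ℝ) = (n:ℝ) * (256 * s) := by ring
        _ ≤ κ * ((b:ℝ) * (16 * n)) ^ 2 := h3
        _ = _ := by ring
    have h5 : (s:ℝ) ≤ κ * n * (b:ℝ) ^ 2 := le_of_mul_le_mul_left h4 (by positivity)
    calc u ^ 2 * s ≤ u ^ 2 * (κ * n * (b:ℝ) ^ 2) := mul_le_mul_of_nonneg_left h5 hu2.le
      _ = (u ^ 2 * κ) * n * (b:ℝ) ^ 2 := by ring
      _ = _ := by rw [hκu]
  -- the size of the axioms
  have hb2 : (8 * (16 * ((b:ℝ) + 1)) ^ 2) * (n:ℝ) ^ 2 ≤ 128 * (N:ℝ) ^ 2 := by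
    have h1 : (b:ℝ) + 1 ≤ 2 * b := by linarith
    have h2 : 8 * (16 * ((b:ℝ) + 1)) ^ 2 ≤ 8 * (16 * (2 * b)) ^ 2 := by
      have : (16 * ((b:ℝ) + 1)) ^ 2 ≤ (16 * (2 * b)) ^ 2 :=
        pow_le_pow_left₀ (by positivity) (by linarith) 2
      linarith
    have h3 : ((b:ℝ) * (8 * n)) ^ 2 ≤ (N:ℝ) ^ 2 := pow_le_pow_left₀ (by positivity) hbup 2
    calc (8 * (16 * ((b:ℝ) + 1)) ^ 2) * (n:ℝ) ^ 2
        ≤ (8 * (16 * (2 * b)) ^ 2) * (n:ℝ) ^ 2 := mul_le_mul_of_nonneg_right h2 (by positivity)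
      _ = 128 * ((b:ℝ) * (8 * n)) ^ 2 := by ring
      _ ≤ _ := by linarith
  have hsn : κ * (N:ℝ) ^ 2 ≤ 512 * (s * n) := by
    rw [← hQs]; nlinarith
  have hκn : (2:ℝ) ^ 16 ≤ κ * n := by
    have h1 : (2:ℝ) ^ 20 ≤ κ * Q := by
      have := mul_le_mul_of_nonneg_left hQbig hκ0.le
      rwa [mul_div_cancel₀ _ hκ0.ne'] at this
    have h2 : κ * Q ≤ κ * (2 * n) := mul_le_mul_of_nonneg_left hQ2n hκ0.le
    norm_num at h1 ⊢
    linarith
  have haxR : 8 * (16 * ((b:ℝ) + 1)) ^ 2 ≤ s := by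
    have h1 : (8 * (16 * ((b:ℝ) + 1)) ^ 2) * (n:ℝ) ^ 2 * κ ≤ s * (n:ℝ) ^ 2 * κ := by
      calc (8 * (16 * ((b:ℝ) + 1)) ^ 2) * (n:ℝ) ^ 2 * κ
          ≤ 128 * (N:ℝ) ^ 2 * κ := mul_le_mul_of_nonneg_right hb2 hκ0.le
        _ = 128 * (κ * (N:ℝ) ^ 2) := by ring
        _ ≤ 128 * (512 * (s * n)) := by linarith
        _ = 2 ^ 16 * (s * n) := by ring
        _ ≤ (κ * n) * (s * n) := mul_le_mul_of_nonneg_right hκn (by positivity)
        _ = _ := by ring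
    have h2 := le_of_mul_le_mul_right h1 hκ0
    exact le_of_mul_le_mul_right h2 (by positivity)
  have hax : 8 * (16 * (b + 1)) ^ 2 ≤ s := by exact_mod_cast haxR
  obtain ⟨Γ, hΓ1, hΓ2, hΓ3⟩ := assembly N n s hn1200 h8n u hu
    (by rw [← hb]; exact hsize)
  rw [← hb] at hΓ1
  refine ⟨n, Γ, by omega, fun i => (hΓ1 i).trans hax, ?_, hΓ2, ?_⟩
  · have h1 : (∑ i, (Γ i).leaves) ≤ n * (8 * (16 * (b + 1)) ^ 2) := by
      calc (∑ i, (Γ i).leaves) ≤ ∑ _i : Fin n, 8 * (16 * (b + 1)) ^ 2 :=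
            Finset.sum_le_sum fun i _ => hΓ1 i
        _ = _ := by simp
    have h2 : ((∑ i, (Γ i).leaves : ℕ) : ℝ) ≤ n * (8 * (16 * ((b:ℝ) + 1)) ^ 2) := by
      exact_mod_cast h1
    refine h2.trans ?_
    have h3 : (n * (8 * (16 * ((b:ℝ) + 1)) ^ 2)) * (κ * n) ≤ (2 ^ 16 / κ * s) * (κ * n) := by
      calc (n * (8 * (16 * ((b:ℝ) + 1)) ^ 2)) * (κ * n)
          = κ * ((8 * (16 * ((b:ℝ) + 1)) ^ 2) * (n:ℝ) ^ 2) := by ring
        _ ≤ κ * (128 * (N:ℝ) ^ 2) := mul_le_mul_of_nonneg_left hb2 hκ0.le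
        _ = 128 * (κ * (N:ℝ) ^ 2) := by ring
        _ ≤ 128 * (512 * (s * n)) := by linarith
        _ = (2 ^ 16 / κ * s) * (κ * n) := by
            field_simp
            ring
    exact le_of_mul_le_mul_right h3 (by positivity)
  · intro L pf hpf
    refine le_trans ?_ (hΓ3 L pf hpf)
    have h1 : (2:ℝ) ^ (8 * n) = (2:ℝ) ^ ((8 * n : ℕ) : ℝ) := (Real.rpow_natCast 2 (8 * n)).symm
    rw [h1]
    refine Real.rpow_le_rpow_of_exponent_le (by norm_num) ?_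
    push_cast
    rw [div_le_iff₀ hs0]
    calc κ ^ 2 / 2 ^ 28 * (N:ℝ) ^ 2 = (κ / 2 ^ 28) * (κ * (N:ℝ) ^ 2) := by ring
      _ ≤ (1 / 2 ^ 28) * (κ * (N:ℝ) ^ 2) := by
          refine mul_le_mul_of_nonneg_right ?_ (by positivity)
          exact div_le_div_of_nonneg_right hκ1 (by positivity)
      _ = (1 / 2 ^ 28) * (Q * (256 * s)) := by rw [hQs]
      _ ≤ (1 / 2 ^ 28) * ((2 * n) * (256 * s)) := by
          refine mul_le_mul_of_nonneg_left ?_ (by positivity)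
          exact mul_le_mul_of_nonneg_right hQ2n (by positivity)
      _ ≤ 8 * n * s := by
          have : 0 ≤ (n:ℝ) * s := by positivity
          nlinarith

end Pool.Agent.Results.MP_576eff_lc.NarrowLines
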