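import Mathlib
import Pool.Agent.H3.Alg2.FinAlg

/-!
# Exponential lower bounds for sums of squares over bounded-depth formulas over short formulas and
over a few arbitrary formulas

Static semialgebraic proofs of any degree whose variables are propositional formulas: for every
`θ < 2` and every `D` there are tautologies `τ n` such that, for every set `G` of at most
`|τ n| ^ ε` arbitrary formulas, every sum-of-squares refutation of the clauses of `¬τ n` whose
formulas have depth at most `D` over the formulas in `G` and the formulas of size at most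
`|τ n| ^ θ` uses at least `2 ^ (|τ n| ^ ε)` formulas and monomials.
-/

set_option autoImplicit false

namespace Pool.Agent.Results.MP_576eff_lc.SumsOfSquaresOverShort

open Filter Pool.Agent.H3.Frg Pool.Agent.H3.Frg4 Pool.Agent.H3.Ac Pool.Agent.H3.Alg2

theorem result (θ : ℝ) (hθ : θ < 2) (D : ℕ) :
    ∃ (k : ℕ) (ε : ℝ), 0 < ε ∧ ∃ (d : ℕ → ℕ) (C : ℕ → ℕ → Fm ℕ) (τ : ℕ → Fm ℕ),
      (∀ n, τ n = Fm.neg (bigAnd (d n) (C n))) ∧
      (∀ n i, IsClause k (C n i)) ∧
      (∀ n x, (τ n).eval x = true) ∧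
      (∀ n i, ∃ j, j < 2 ^ d n ∧ C n i = C n j) ∧
      Tendsto (fun n => (τ n).enc.length) atTop atTop ∧
      ∀ᶠ n in atTop, ∀ G F : Finset (Fm ℕ), (G.card : ℝ) ≤ ((τ n).enc.length : ℝ) ^ ε →
        CloOff (G : Set (Fm ℕ)) (F : Set (Fm ℕ)) →
        (∀ A ∈ F, LDep (fun A => (A.enc.length : ℝ) ≤ ((τ n).enc.length : ℝ) ^ θ ∨ A ∈ G) D A) →
        ∀ (J I : ℕ) (q : Fin J → MvPolynomial (Fm ℕ) ℝ) (h p : Fin I → MvPolynomial (Fm ℕ) ℝ),
          SosRef (C n) (F : Set (Fm ℕ)) q h p →
            (2 : ℝ) ^ (((τ n).enc.length : ℝ) ^ ε) ≤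
              (F.card : ℝ) + {m : Fm ℕ →₀ ℕ | (∃ j, m ∈ (q j).support) ∨
                ∃ i, m ∈ (h i).support}.ncard :=
  finSos θ hθ D

end Pool.Agent.Results.MP_576eff_lc.SumsOfSquaresOverShort
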